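import Pool.Agent.W_448qd_h16.QF

/-!
# No quads (MP_448cb3_co)

All levels less than `j` are good, no element of level `j + 1` is below two maximal elements, and every
component of level `j` is natural, or has at most three sites, or its defects form one star.  Then no
element of level `j + 2` has two upper covers which are both double and have no common upper cover.
-/

namespace Pool.Agent.GaussPoset.St

set_option linter.unusedSectionVars false

open Finset Polynomial

section deg

variable {α : Type*} [DecidableEq α] {A : Finset α → ℤ} {V U : Finset α}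

/-- blocks with first order terms of degree at most two -/
def Deg2 (A : Finset α → ℤ) (V : Finset α) : Prop :=
  Tight A V ∧ ∀ v ∈ V, (gx A V v).natDegree ≤ 2

lemma deg2_of_zero (h : ∀ u ∈ V, ∀ w ∈ V, u ≠ w → A {u, w} = 0) : Deg2 A V := by
  refine ⟨tight_of_zero h, fun v hv => (tight_of_zero h).gx_deg ⟨∅, empty_subset _, ?_, ?_⟩⟩
  · intro y hy _
    exact h v hv y (mem_of_mem_erase hy) (ne_of_mem_erase hy).symm
  · left
    rw [card_empty]
    exact Nat.zero_le 1

lemma deg2_of_card (h : V.card ≤ 3) : Deg2 A V := by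
  refine ⟨tight_of_card h, fun v hv => (tight_of_card h).gx_deg ⟨V.erase v, Subset.refl _, ?_, ?_⟩⟩
  · intro y hy hn
    exact absurd hy hn
  · right
    rw [insert_erase hv, sdiff_self, card_erase_of_mem hv]
    exact ⟨by omega, mp_empty⟩

lemma deg2_of_star {d : α × α × α} (H : Starry A V {d}) : Deg2 A V := by
  have ht := tight_of_star H
  have hst := H.star d (mem_singleton_self _)
  have hd := mem_singleton_self d
  have hsub := H.sub d hd
  have key : ∀ u ∈ V, ∀ w ∈ V, u ≠ w → u ≠ d.1 → w ≠ d.1 → A {u, w} = 0 := by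
    intro u hu w hw huw hu1 hw1
    by_cases h : u ∈ sp d ∧ w ∈ sp d
    · rw [mem_sp, mem_sp] at h
      rcases h.1.resolve_left hu1 with h2 | h2 <;> rcases h.2.resolve_left hw1 with h3 | h3
      · exact absurd (h2.trans h3.symm) huw
      · rw [h2, h3]
        exact hst.Aab
      · rw [h2, h3, pair_comm]
        exact hst.Aab
      · exact absurd (h2.trans h3.symm) huw
    · refine H.zero u hu w hw huw ?_
      intro d' hd'
      rw [mem_singleton] at hd'
      rw [hd']
      exact h
  refine ⟨ht, fun v hv => ht.gx_deg ?_⟩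
  by_cases hv1 : v = d.1
  · subst hv1
    refine ⟨{d.2.1, d.2.2}, ?_, ?_, Or.inr ⟨card_le_two, ?_⟩⟩
    · intro x hx
      rw [mem_insert, mem_singleton] at hx
      rw [mem_erase]
      rcases hx with rfl | rfl
      · exact ⟨hst.sa.symm, hsub (mem_sp.2 (Or.inr (Or.inl rfl)))⟩
      · exact ⟨hst.sb.symm, hsub (mem_sp.2 (Or.inr (Or.inr rfl)))⟩
    · intro y hy hy'
      refine H.nb_zero hd (mem_sp.2 (Or.inl rfl)) hy ?_
      rw [mem_insert, mem_singleton] at hy'
      rw [mem_sp]
      rintro (h | h)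
      · exact ne_of_mem_erase hy h
      · exact hy' h
    · refine mp_zero ?_
      intro u hu w hw huw
      rw [mem_sdiff, mem_insert, not_or] at hu hw
      exact key u hu.1 w hw.1 huw hu.2.1 hw.2.1
  · by_cases hc : d.1 ∈ V
    · refine ⟨{d.1}, ?_, ?_, Or.inl ?_⟩
      · rw [singleton_subset_iff, mem_erase]
        exact ⟨fun h => hv1 h.symm, hc⟩
      · intro y hy hy'
        rw [mem_singleton] at hy'
        exact key v hv y (mem_of_mem_erase hy) (ne_of_mem_erase hy).symm hv1 hy'
      · rw [card_singleton]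
    · exact absurd (hsub (mem_sp.2 (Or.inl rfl))) hc

/-- a polynomial with a small multiple vanishes at zero -/
lemma coeff_zero_of_deg {Q R : ℤ[X]} (h : 2 * X ^ 2 * (1 + X) * Q = R) (hR : R.natDegree ≤ 2) :
    Q.coeff 0 = 0 := by
  have h1 : ∀ m, Q.coeff m = -Q.coeff (m + 1) := by
    intro m
    have h2 : R.coeff (m + 1 + 2) = 0 := coeff_eq_zero_of_natDegree_lt (by omega)
    have h3 : 2 * X ^ 2 * (1 + X) * Q = C 2 * ((Q + X * Q) * X ^ 2) := by
      rw [map_ofNat]
      ring
    rw [← h, h3, coeff_C_mul, coeff_mul_X_pow, coeff_add, coeff_X_mul] at h2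
    linarith
  have h2 : ∀ m, Q.coeff 0 = (-1) ^ m * Q.coeff m := by
    intro m
    induction m with
    | zero => rw [pow_zero, one_mul]
    | succ m ih =>
      rw [ih, h1 m, pow_succ]
      ring
  rw [h2 (Q.natDegree + 1), coeff_eq_zero_of_natDegree_lt (Nat.lt_succ_self _), mul_zero]

end deg

end Pool.Agent.GaussPoset.St

namespace Pool.Agent.GaussPoset.Win
namespace T6N

set_option linter.unusedSectionVars false

open Finset Polynomial

universe u

variable {P : Type u} [Fintype P] [PartialOrder P] [DecidableEq P] {r j : ℕ}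

section deg

variable (h : GoodTo P r j) (hno : ∀ z : P, lev z = j + 1 → ¬ Hul.Jn z)
  (hcase : ∀ t : P, lev t = 0 → St.Deg2 (Df j) (St.wt0 j t))

include h hno hcase in
/-- sites in one component -/
lemma Fx_deg {T : Finset P} {t : P} (ht : lev t = 0) (hT : T ⊆ St.wt0 j t) :
    (Fx j T).natDegree ≤ 1 := by
  unfold Fx
  rw [St.lv_eq j, (T6_blk h hno).mp_loc (mem_lv.2 ht) hT]
  exact (hcase t ht).1.deg sdiff_subset

include h hno hcase in
lemma Fx_deg_one {v : P} (hv : lev v = j) : (Fx j {v}).natDegree ≤ 1 := by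
  obtain ⟨t, hvt, ht⟩ := exists_above' (x := v) (j := 0) (Nat.zero_le _)
  exact Fx_deg h hno hcase ht (singleton_subset_iff.2 (St.mem_wt0.2 ⟨hv, hvt⟩))

include h hno hcase in
/-- two sites with a common neighbour -/
lemma Fx_deg_two {u w : P} (hu : lev u = j) (hw : lev w = j) (hd : 1 ≤ dcv u w ∨ 1 ≤ ucv u w) :
    (Fx j {u, w}).natDegree ≤ 1 := by
  obtain ⟨t, hut, ht⟩ := exists_above' (x := u) (j := 0) (Nat.zero_le _)
  obtain ⟨t', hwt, ht'⟩ := exists_above' (x := w) (j := 0) (Nat.zero_le _)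
  have htt : t = t' := by
    by_contra hne
    obtain ⟨-, h2, h3⟩ := S6_cross h hno (mem_lv.2 ht) (mem_lv.2 ht') hne
      (St.mem_wt0.2 ⟨hu, hut⟩) (St.mem_wt0.2 ⟨hw, hwt⟩)
    omega
  subst htt
  refine Fx_deg h hno hcase ht ?_
  intro x hx
  rw [mem_insert, mem_singleton] at hx
  rcases hx with rfl | rfl
  · exact St.mem_wt0.2 ⟨hu, hut⟩
  · exact St.mem_wt0.2 ⟨hw, hwt⟩

include h hno hcase in
lemma Fx_deg_ns {x : P} (hx : x ∈ dbL P j ∪ dbU P j) : (Fx j (ns j x)).natDegree ≤ 1 := by
  obtain ⟨a, b, hab, hns⟩ := card_eq_two.1 (ns_card hx)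
  have ha : a ∈ ns j x := by rw [hns]; simp
  have hb : b ∈ ns j x := by rw [hns]; simp
  have hla := ns_lv h.H (dbl_near hx) ha
  have hlb := ns_lv h.H (dbl_near hx) hb
  rw [hns]
  refine Fx_deg_two h hno hcase hla hlb ?_
  rcases mem_union.1 hx with hx' | hx'
  · rw [ns_L hx', mem_uc] at ha hb
    exact Or.inl (StA_dcv_pos ha hb)
  · rw [ns_U hx', mem_dc] at ha hb
    exact Or.inr (StA_ucv_pos ha hb)

include h hno hcase in
lemma Fx_deg_PD {z : P} (hz : z ∈ PD P j) : (Fx j ((uc z).biUnion (ns j))).natDegree ≤ 1 := by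
  have hz' := mem_PD.1 hz
  obtain ⟨h1, h2, w, hw, h4⟩ := hz'
  have hl := lev_cov h.H hw
  have h5 : w ∈ dbL P j := mem_dbL.2 ⟨by omega, h4⟩
  rw [PD_site hz hw h.H, ← ns_L h5]
  exact Fx_deg_ns h hno hcase (mem_union_left _ h5)

include h hno hcase in
lemma Fx_deg_PU {z : P} (hz : z ∈ PU P j) : (Fx j ((dc z).biUnion (ns j))).natDegree ≤ 1 := by
  have hz' := mem_PU.1 hz
  obtain ⟨h1, h2, w, hw, h4⟩ := hz'
  have hl := lev_cov h.H hw
  have h5 : w ∈ dbU P j := mem_dbU.2 ⟨by omega, h4⟩
  obtain ⟨w', hw'⟩ := card_eq_one.1 h2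
  have h6 : w = w' := by
    have : w ∈ dc z := mem_dc.2 hw
    rw [hw', mem_singleton] at this
    exact this
  subst h6
  rw [hw', singleton_biUnion]
  exact Fx_deg_ns h hno hcase (mem_union_right _ h5)

include h hno hcase in
/-- NO QUADS -/
theorem QD_empty : QD P j = ∅ := by
  have h3 : ∀ x : P, lev x + 2 = j → dn j x ≤ 3 := by
    intro x hx
    have h4 := dn_le_three h.H (k := lev x) (h.good (lev x + 1) (by omega)) rfl
    rw [hx] at h4
    exact h4
  have hp := poly h.H h.hr h3
  set Q : ℤ[X] := ∑ z ∈ QD P j, Fx j ((uc z).biUnion (ns j)) with hQ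
  have hQ0 : Q.coeff 0 = ((QD P j).card : ℤ) := by
    rw [hQ, finsetSum_coeff]
    unfold Fx
    simp only [St.coeff_zero_mp, sum_const, nsmul_eq_mul, mul_one]
  have hz : Q.coeff 0 = 0 := by
    refine St.coeff_zero_of_deg (sub_eq_zero.1 hp).symm ?_
    have d1 : (1 : ℤ[X]).natDegree ≤ 2 := by
      rw [natDegree_one]
      exact Nat.zero_le 2
    have dsub : ∀ {p q : ℤ[X]}, p.natDegree ≤ 2 → q.natDegree ≤ 2 → (p - q).natDegree ≤ 2 :=
      fun hp hq => (natDegree_sub_le _ _).trans (max_le hp hq)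
    have dadd : ∀ {p q : ℤ[X]}, p.natDegree ≤ 2 → q.natDegree ≤ 2 → (p + q).natDegree ≤ 2 :=
      fun hp hq => (natDegree_add_le _ _).trans (max_le hp hq)
    have dtwo : ∀ {p : ℤ[X]}, p.natDegree ≤ 2 → (2 * p).natDegree ≤ 2 := by
      intro p hp
      rw [two_mul]
      exact dadd hp hp
    have dthree : (3 : ℤ[X]).natDegree ≤ 2 := by
      rw [natDegree_ofNat]
      exact Nat.zero_le 2
    refine dsub (dsub (dadd ?_ (dtwo ?_)) (dtwo ?_)) ?_
    · refine natDegree_sum_le_of_forall_le _ _ fun x hx => dsub (dadd ?_ ?_) dthree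
      · refine natDegree_sum_le_of_forall_le _ _ fun a ha => ?_
        exact (Fx_deg_one h hno hcase (ns_lv h.H (dbl_near hx) ha)).trans (by norm_num)
      · exact (Fx_deg_ns h hno hcase hx).trans (by norm_num)
    · refine natDegree_sum_le_of_forall_le _ _ fun x hx => dsub ?_ d1
      rw [mem_sgl] at hx
      obtain ⟨v, hv⟩ := card_eq_one.1 hx.2
      have hl := ns_lv h.H hx.1 (show v ∈ ns j x by rw [hv]; exact mem_singleton_self v)
      rw [hv]
      exact (Fx_deg_one h hno hcase hl).trans (by norm_num)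
    · refine natDegree_sum_le_of_forall_le _ _ fun v hv => dsub ?_ d1
      rw [mem_lv] at hv
      obtain ⟨t, hvt, ht⟩ := exists_above' (x := v) (j := 0) (Nat.zero_le _)
      have hvw : v ∈ St.wt0 j t := St.mem_wt0.2 ⟨hv, hvt⟩
      rw [St.lv_eq j, (T6_blk h hno).gx_loc (mem_lv.2 ht) hvw]
      exact (hcase t ht).2 v hvw
    · have e : ∀ {p : ℤ[X]}, p.natDegree ≤ 1 → (2 * X * p).natDegree ≤ 2 := by
        intro p hp
        rw [mul_assoc]
        refine dtwo (natDegree_mul_le.trans ?_)
        rw [natDegree_X]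
        omega
      refine e ((natDegree_sub_le _ _).trans (max_le ?_ ?_))
      · exact natDegree_sum_le_of_forall_le _ _ fun z hz => Fx_deg_PD h hno hcase hz
      · exact natDegree_sum_le_of_forall_le _ _ fun z hz => Fx_deg_PU h hno hcase hz
  rw [hQ0] at hz
  exact card_eq_zero.1 (by exact_mod_cast hz)

end deg

end T6N

open Finset

universe u

variable {P : Type u} [Fintype P] [PartialOrder P] [DecidableEq P] {r j : ℕ}

/-- the admissible components for the theorem on quads -/
def QDcase (P : Type u) [Fintype P] [PartialOrder P] [DecidableEq P] (j : ℕ) (t : P) : Prop :=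
  NatT j t ∨ (St.wt0 j t).card ≤ 3 ∨ ∃ d, St.Starry (Df j) (St.wt0 j t) {d}

lemma QDcase.deg2 (H : Gr P r) {t : P} (h : QDcase P j t) : St.Deg2 (Df j) (St.wt0 j t) := by
  rcases h with h | h | ⟨d, h⟩
  · rw [natT_iff H] at h
    exact St.deg2_of_zero h
  · exact St.deg2_of_card h
  · exact St.deg2_of_star h

lemma RotR.QDcase (H : Gr P r) {t : P} {m : ℕ} {x : ℕ → P} (R : RotR P j t m x) :
    QDcase P j t := by
  refine Or.inr (Or.inr ⟨(x 0, x m, x 1), ?_⟩)
  rw [R.row.wt_eq]
  exact R.starry H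

/-- NO QUADS: no element of level `j + 2` has two upper covers which are both double and have no common
upper cover -/
theorem no_quad (h : GoodTo P r j) (hno : ∀ z : P, lev z = j + 1 → ¬ Hul.Jn z)
    (hcase : ∀ t : P, lev t = 0 → QDcase P j t) {z w w' : P} (hz : lev z = j + 2) (hw : z ⋖ w)
    (hw' : z ⋖ w') (hne : w ≠ w') (h2 : (uc w).card = 2) (h2' : (uc w').card = 2) :
    ∃ v, w ⋖ v ∧ w' ⋖ v := by
  by_contra hcon
  push Not at hcon
  have he := T6N.QD_empty h hno (fun t ht => (hcase t ht).deg2 h.H)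
  have hl := lev_cov h.H hw
  have hl' := lev_cov h.H hw'
  have hdw : w ∈ dbL P j := mem_dbL.2 ⟨by omega, h2⟩
  have hdw' : w' ∈ dbL P j := mem_dbL.2 ⟨by omega, h2'⟩
  have hpair : uc z = {w, w'} := by
    symm
    apply eq_of_subset_of_card_le
    · intro x hx
      rw [mem_insert, mem_singleton] at hx
      rcases hx with rfl | rfl
      · exact mem_uc.2 hw
      · exact mem_uc.2 hw'
    · rw [card_pair hne]
      exact uc_card_le h.H z
  have hdis : Disjoint (uc w) (uc w') := by
    rw [disjoint_left]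
    intro v hv hv'
    exact hcon v (mem_uc.1 hv) (mem_uc.1 hv')
  have hmem : z ∈ T6N.QD P j := by
    rw [T6N.mem_QD]
    refine ⟨hz, by rw [hpair, card_pair hne], ?_⟩
    rw [hpair]
    refine ⟨?_, ?_⟩
    · intro x hx
      rw [mem_insert, mem_singleton] at hx
      rcases hx with rfl | rfl
      · exact mem_union_left _ hdw
      · exact mem_union_left _ hdw'
    · intro x hx y hy hxy
      rw [mem_insert, mem_singleton] at hx hy
      rcases hx with rfl | rfl <;> rcases hy with rfl | rfl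
      · exact absurd rfl hxy
      · rw [ns_L hdw, ns_L hdw']
        exact hdis
      · rw [ns_L hdw, ns_L hdw']
        exact hdis.symm
      · exact absurd rfl hxy
  rw [he] at hmem
  exact notMem_empty _ hmem

end Pool.Agent.GaussPoset.Win
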