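import Pool.Agent.W_448t6_h94.TsP

/-! The first order identities at an integer `s`: raw form (MP_448cb3_co). -/

namespace Pool.Agent.GaussPoset.Win
namespace T6N

set_option linter.unusedSectionVars false

open Finset

universe u

section layers

variable {P : Type u} (X : Finset (Finset P)) (g : Finset P → ℤ) (K : ℕ) (s : ℤ)

lemma lays0 (hX : ∀ F ∈ X, F.card ≤ K) (j : ℕ) :
    ∑ m ∈ range (K + 1 + j), s ^ m * ∑ F ∈ X.filter (fun F => F.card = m), g F =
      ∑ F ∈ X, s ^ F.card * g F := by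
  rw [← sum_fiberwise_of_maps_to (s := X) (t := range (K + 1 + j)) (g := fun F => F.card)
    (fun F hF => mem_range.2 (by have := hX F hF; omega))]
  refine sum_congr rfl fun m _ => ?_
  rw [mul_sum]
  refine sum_congr rfl fun F hF => ?_
  rw [(mem_filter.1 hF).2]

lemma lays1 (hX : ∀ F ∈ X, F.card ≤ K) :
    s * ∑ m ∈ range (K + 1), s ^ m * ∑ F ∈ X.filter (fun F => F.card = m + 1), g F =
      ∑ F ∈ X, s ^ F.card * g F - ∑ F ∈ X.filter (fun F => F.card = 0), g F := by
  rw [← lays0 X g K s hX 1, sum_range_succ' _ (K + 1)]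
  have h : ∑ m ∈ range (K + 1), s ^ (m + 1) *
      ∑ F ∈ X.filter (fun F => F.card = m + 1), g F =
      s * ∑ m ∈ range (K + 1), s ^ m * ∑ F ∈ X.filter (fun F => F.card = m + 1), g F := by
    rw [mul_sum]
    refine sum_congr rfl fun m _ => ?_
    rw [pow_succ]
    ring
  rw [h, pow_zero]
  ring

lemma lays2 (hX : ∀ F ∈ X, F.card ≤ K) :
    s ^ 2 * ∑ m ∈ range (K + 1), s ^ m * ∑ F ∈ X.filter (fun F => F.card = m + 2), g F =
      ∑ F ∈ X, s ^ F.card * g F - ∑ F ∈ X.filter (fun F => F.card = 0), g F -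
        s * ∑ F ∈ X.filter (fun F => F.card = 1), g F := by
  rw [← lays0 X g K s hX 2, sum_range_succ' _ (K + 2), sum_range_succ' _ (K + 1)]
  have h : ∑ m ∈ range (K + 1), s ^ (m + 1 + 1) *
      ∑ F ∈ X.filter (fun F => F.card = m + 1 + 1), g F =
      s ^ 2 * ∑ m ∈ range (K + 1), s ^ m * ∑ F ∈ X.filter (fun F => F.card = m + 2), g F := by
    rw [mul_sum]
    refine sum_congr rfl fun m _ => ?_
    rw [pow_succ, pow_succ]
    ring
  rw [h, pow_zero, zero_add, pow_one]
  ring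

/-- sum of a layer identity -/
lemma lsums (f : ℕ → ℤ) (h : ∀ m, f m = 0) : ∑ m ∈ range (K + 1), s ^ m * f m = 0 :=
  sum_eq_zero fun m _ => by rw [h m, mul_zero]

end layers

variable {P : Type u} [Fintype P] [PartialOrder P] [DecidableEq P] {r : ℕ} {i : ℕ}

/-- weight of a family at `s` -/
noncomputable def oms (s : ℤ) (i : ℕ) (F : Finset P) : ℤ := s ^ F.card * eps i F

/-- families avoiding the sites `T` -/
noncomputable def phs (s : ℤ) (i : ℕ) (T : Finset P) : ℤ :=
  ∑ F ∈ (FA P i).filter (fun F => Disjoint (F.biUnion (ns i)) T), oms s i F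

/-- families containing `T` -/
noncomputable def pss (s : ℤ) (i : ℕ) (T : Finset P) : ℤ :=
  ∑ F ∈ (FA P i).filter (fun F => T ⊆ F), oms s i F

/-- the site sum -/
noncomputable def GGs (s : ℤ) (i : ℕ) (v : P) : ℤ :=
  ∑ G ∈ SA P i v, s ^ G.card * ∏ x ∈ G, sgv i v x

/-- the part `A` -/
lemma partAs (H : Gr P r) (hi : i ≤ r) (s : ℤ) :
    s ^ 2 * ∑ m ∈ range ((dbL P i ∪ dbU P i).card + 1), s ^ m *
      ∑ F ∈ FF P i (m + 2), eps i F * (3 * ((F ∩ dbU P i).card : ℤ) - 2 * ((m + 2 : ℕ) : ℤ)) =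
    3 * ∑ F ∈ FA P i, oms s i F * ((F ∩ dbU P i).card : ℤ) + 3 * s * ((dbU P i).card : ℤ) := by
  have h1 : ∀ m, ∑ F ∈ FF P i (m + 2), eps i F * (3 * ((F ∩ dbU P i).card : ℤ) -
      2 * ((m + 2 : ℕ) : ℤ)) =
      ∑ F ∈ (FA P i).filter (fun F => F.card = m + 2), 3 * (eps i F * (F ∩ dbU P i).card) := by
    intro m
    rw [← FF_eq]
    have h2 := kk H hi (k := m + 2) (by omega)
    have h3 : ∑ F ∈ FF P i (m + 2), eps i F * (3 * ((F ∩ dbU P i).card : ℤ) -
        2 * ((m + 2 : ℕ) : ℤ)) = ∑ F ∈ FF P i (m + 2), 3 * (eps i F * (F ∩ dbU P i).card) -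
        2 * ((m + 2 : ℕ) : ℤ) * ∑ F ∈ FF P i (m + 2), (-1 : ℤ) ^ (F ∩ dbU P i).card := by
      rw [mul_sum, ← sum_sub_distrib]
      refine sum_congr rfl fun F _ => ?_
      rw [← eps_eq]
      ring
    rw [h3, h2, mul_zero, sub_zero]
  simp only [h1]
  rw [lays2 (FA P i) (fun F => 3 * (eps i F * (F ∩ dbU P i).card)) _ s (fun F hF => FA_card hF),
    zero_fib (mem_FA.2 Dj_empty)]
  have h4 : ∑ F ∈ FA P i, s ^ F.card * (3 * (eps i F * (F ∩ dbU P i).card)) =
      3 * ∑ F ∈ FA P i, oms s i F * ((F ∩ dbU P i).card : ℤ) := by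
    rw [mul_sum]
    refine sum_congr rfl fun F _ => ?_
    unfold oms
    ring
  have h5 : ∑ F ∈ (FA P i).filter (fun F => F.card = 1), 3 * (eps i F * (F ∩ dbU P i).card) =
      -3 * ((dbU P i).card : ℤ) := by
    have h6 : (FA P i).filter (fun F => F.card = 1) = (dbL P i ∪ dbU P i).image (fun x => {x}) := by
      ext F
      rw [mem_filter, mem_FA, mem_image]
      constructor
      · rintro ⟨h7, h8⟩
        obtain ⟨x, rfl⟩ := card_eq_one.1 h8
        exact ⟨x, h7.1 (mem_singleton_self x), rfl⟩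
      · rintro ⟨x, hx, rfl⟩
        refine ⟨⟨singleton_subset_iff.2 hx, ?_⟩, card_singleton x⟩
        intro a ha b hb hne
        rw [mem_singleton] at ha hb
        exact absurd (ha.trans hb.symm) hne
    rw [h6, sum_image (fun a _ b _ h => singleton_injective h)]
    have h7 : ∀ x ∈ dbL P i ∪ dbU P i, 3 * (eps i {x} * (({x} : Finset P) ∩ dbU P i).card) =
        if x ∈ dbU P i then (-3 : ℤ) else 0 := by
      intro x hx
      split_ifs with h8
      · rw [eps_eq, inter_eq_left.2 (singleton_subset_iff.2 h8), card_singleton]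
        norm_num
      · rw [singleton_inter_of_notMem h8, card_empty]
        norm_num
    rw [sum_congr rfl h7, ← sum_filter, sum_const, nsmul_eq_mul]
    have h8 : (dbL P i ∪ dbU P i).filter (fun x => x ∈ dbU P i) = dbU P i := by
      ext x
      rw [mem_filter, mem_union]
      tauto
    rw [h8]
    ring
  rw [h4, h5, empty_inter, card_empty]
  push_cast
  ring

/-- RAW IDENTITY at `s` -/
theorem raws (H : Gr P r) (hi : i ≤ r) (h3 : ∀ x : P, lev x + 2 = i → dn i x ≤ 3) (s : ℤ) :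
    (3 * ∑ F ∈ FA P i, oms s i F * ((F ∩ dbU P i).card : ℤ) + 3 * s * ((dbU P i).card : ℤ)) -
      s * ∑ h ∈ sgl P i, (phs s i (ns i h) - 1) +
      s ^ 2 * ∑ p ∈ OP P i, osg i p * phs s i (p.biUnion (ns i)) +
      s * ∑ v ∈ lv P i, (GGs s i v - 1) +
      s * ∑ z ∈ lv P (i + 2), pss s i (uc z) +
      s ^ 2 * ∑ z ∈ (lv P (i + 2)).filter (fun z => (uc z).card = 2), pss s i (uc z) +
      s * ∑ z ∈ (lU P i 2).filter (fun z => (dc z).card = 1), pss s i (dc z) = 0 := by
  set K := (dbL P i ∪ dbU P i).card with hK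
  have hid := lsums K s _ (fun m => idn H hi h3 (n := m + 2) (by omega))
  simp only [mul_add, sum_add_distrib, show ∀ m, m + 2 - 1 = m + 1 from fun m => by omega,
    show ∀ m, m + 2 - 2 = m from fun m => by omega] at hid
  have hA := partAs H hi (P := P) (i := i) s
  rw [← hK] at hA
  have hB : s * ∑ m ∈ range (K + 1), s ^ m * ∑ h ∈ sgl P i, ∑ F ∈ FFa P i (m + 1) (ns i h),
      -eps i F = - ∑ h ∈ sgl P i, (phs s i (ns i h) - 1) := by
    have e : ∀ m, s ^ m * ∑ h ∈ sgl P i, ∑ F ∈ FFa P i (m + 1) (ns i h), -eps i F =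
        ∑ h ∈ sgl P i, s ^ m * ∑ F ∈ FFa P i (m + 1) (ns i h), -eps i F := fun m => mul_sum _ _ _
    simp only [e]
    rw [sum_comm, mul_sum, ← sum_neg_distrib]
    refine sum_congr rfl fun h _ => ?_
    simp only [FFa_eq]
    rw [lays1 _ (fun F => -eps i F) K s (fun F hF => FA_card (mem_filter.1 hF).1), zero_fib,
      eps_empty]
    · unfold phs oms
      have : ∑ F ∈ (FA P i).filter (fun F => Disjoint (F.biUnion (ns i)) (ns i h)),
          s ^ F.card * -eps i F = - ∑ F ∈ (FA P i).filter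
            (fun F => Disjoint (F.biUnion (ns i)) (ns i h)), s ^ F.card * eps i F := by
        rw [← sum_neg_distrib]
        exact sum_congr rfl fun F _ => by ring
      rw [this]
      ring
    · rw [mem_filter, mem_FA, biUnion_empty]
      exact ⟨Dj_empty, disjoint_empty_left _⟩
  have hC : ∑ m ∈ range (K + 1), s ^ m * ∑ p ∈ OP P i,
      ∑ F ∈ FFa P i m (p.biUnion (ns i)), osg i p * eps i F =
      ∑ p ∈ OP P i, osg i p * phs s i (p.biUnion (ns i)) := by
    simp only [mul_sum (OP P i)]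
    rw [sum_comm]
    refine sum_congr rfl fun p _ => ?_
    simp only [FFa_eq]
    have h := lays0 ((FA P i).filter (fun F => Disjoint (F.biUnion (ns i)) (p.biUnion (ns i))))
      (fun F => osg i p * eps i F) K s (fun F hF => FA_card (mem_filter.1 hF).1) 0
    rw [add_zero] at h
    rw [h]
    unfold phs oms
    rw [mul_sum]
    exact sum_congr rfl fun F _ => by ring
  have hD : s * ∑ m ∈ range (K + 1), s ^ m * ∑ v ∈ lv P i,
      ∑ G ∈ SV P i (m + 1) v, ∏ x ∈ G, sgv i v x = ∑ v ∈ lv P i, (GGs s i v - 1) := by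
    have e : ∀ m, s ^ m * ∑ v ∈ lv P i, ∑ G ∈ SV P i (m + 1) v, ∏ x ∈ G, sgv i v x =
        ∑ v ∈ lv P i, s ^ m * ∑ G ∈ SV P i (m + 1) v, ∏ x ∈ G, sgv i v x :=
      fun m => mul_sum _ _ _
    simp only [e]
    rw [sum_comm, mul_sum]
    refine sum_congr rfl fun v _ => ?_
    simp only [SV_eq]
    rw [lays1 _ (fun G => ∏ x ∈ G, sgv i v x) K s (fun F hF => SA_card hF), zero_fib, prod_empty]
    · unfold GGs
      ring
    · exact mem_SA.2 (SvF_empty v)
  have hne : ∀ z : P, z ∈ lv P (i + 2) → ∅ ∉ (FA P i).filter (fun F => uc z ⊆ F) := by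
    intro z hz h
    rw [mem_filter, subset_empty] at h
    rw [mem_lv] at hz
    have := uc_nonempty H (x := z) (by omega)
    rw [h.2] at this
    exact not_nonempty_empty this
  have hE4 : s * ∑ m ∈ range (K + 1), s ^ m * ∑ z ∈ lv P (i + 2),
      ∑ F ∈ FFc P i (m + 1) (uc z), eps i F = ∑ z ∈ lv P (i + 2), pss s i (uc z) := by
    have e : ∀ m, s ^ m * ∑ z ∈ lv P (i + 2), ∑ F ∈ FFc P i (m + 1) (uc z), eps i F =
        ∑ z ∈ lv P (i + 2), s ^ m * ∑ F ∈ FFc P i (m + 1) (uc z), eps i F :=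
      fun m => mul_sum _ _ _
    simp only [e]
    rw [sum_comm, mul_sum]
    refine sum_congr rfl fun z hz => ?_
    simp only [FFc_eq]
    rw [lays1 _ (fun F => eps i F) K s (fun F hF => FA_card (mem_filter.1 hF).1),
      zero_fib' (hne z hz)]
    unfold pss oms
    ring
  have hE5 : ∑ m ∈ range (K + 1), s ^ m *
      ∑ z ∈ (lv P (i + 2)).filter (fun z => (uc z).card = 2),
      ∑ F ∈ FFc P i m (uc z), eps i F =
      ∑ z ∈ (lv P (i + 2)).filter (fun z => (uc z).card = 2), pss s i (uc z) := by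
    simp only [mul_sum ((lv P (i + 2)).filter (fun z => (uc z).card = 2))]
    rw [sum_comm]
    refine sum_congr rfl fun z hz => ?_
    simp only [FFc_eq]
    have h := lays0 ((FA P i).filter (fun F => uc z ⊆ F))
      (fun F => eps i F) K s (fun F hF => FA_card (mem_filter.1 hF).1) 0
    rw [add_zero] at h
    rw [h]
    rfl
  have hE6 : s * ∑ m ∈ range (K + 1), s ^ m *
      ∑ z ∈ (lU P i 2).filter (fun z => (dc z).card = 1),
      ∑ F ∈ FFc P i (m + 1) (dc z), eps i F =
      ∑ z ∈ (lU P i 2).filter (fun z => (dc z).card = 1), pss s i (dc z) := by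
    have e : ∀ m, s ^ m * ∑ z ∈ (lU P i 2).filter (fun z => (dc z).card = 1),
        ∑ F ∈ FFc P i (m + 1) (dc z), eps i F =
        ∑ z ∈ (lU P i 2).filter (fun z => (dc z).card = 1),
          s ^ m * ∑ F ∈ FFc P i (m + 1) (dc z), eps i F :=
      fun m => mul_sum _ _ _
    simp only [e]
    rw [sum_comm, mul_sum]
    refine sum_congr rfl fun z hz => ?_
    simp only [FFc_eq]
    rw [lays1 _ (fun F => eps i F) K s (fun F hF => FA_card (mem_filter.1 hF).1), zero_fib']
    · unfold pss oms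
      ring
    · intro h
      rw [mem_filter, subset_empty] at h
      rw [mem_filter, h.2, card_empty] at hz
      exact absurd hz.2 (by norm_num)
  linear_combination s ^ 2 * hid - hA - s * hB - s ^ 2 * hC - s * hD - s * hE4 - s ^ 2 * hE5 -
    s * hE6

end T6N
end Pool.Agent.GaussPoset.Win
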