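import Pool.Agent.W_448qd_h16.QA

/-! The first order identities at an integer `s`: elementary identities (MP_448cb3_co). -/

namespace Pool.Agent.GaussPoset.Win
namespace T6N

set_option linter.unusedSectionVars false

open Finset

universe u

variable {P : Type u} [Fintype P] [PartialOrder P] [DecidableEq P] {r : ℕ} {i : ℕ} {s : ℤ}

lemma oms_empty : oms s i (∅ : Finset P) = 1 := by
  unfold oms
  rw [eps_empty, card_empty]
  norm_num

lemma oms_union {K F : Finset P} (h : Disjoint K F) :
    oms s i (K ∪ F) = oms s i K * oms s i F := by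
  unfold oms eps
  rw [card_union_of_disjoint h, prod_union h, pow_add]
  ring

lemma oms_single (w : P) : oms s i ({w} : Finset P) = s * sgn i w := by
  unfold oms eps
  rw [card_singleton, prod_singleton, pow_one]

lemma Dj_disj {K F : Finset P} (hK : K ⊆ dbL P i ∪ dbU P i)
    (h : Disjoint (F.biUnion (ns i)) (K.biUnion (ns i))) : Disjoint K F := by
  rw [disjoint_left]
  intro x hx hx2
  obtain ⟨v, hv⟩ : (ns i x).Nonempty := by
    rw [← card_pos, ns_card (hK hx)]
    norm_num
  exact disjoint_left.1 h (mem_biUnion.2 ⟨x, hx2, hv⟩) (mem_biUnion.2 ⟨x, hx, hv⟩)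

/-- families avoiding `T` which contain `K` -/
lemma contains_s {K : Finset P} (hK : Dj i K) {T : Finset P}
    (hT : Disjoint (K.biUnion (ns i)) T) :
    ∑ F ∈ ((FA P i).filter (fun F => Disjoint (F.biUnion (ns i)) T)).filter (fun F => K ⊆ F),
      oms s i F = oms s i K * phs s i (T ∪ K.biUnion (ns i)) := by
  unfold phs
  rw [mul_sum]
  symm
  refine sum_nbij' (fun F => K ∪ F) (fun F => F \ K) ?_ ?_ ?_ ?_ ?_
  · intro F hF
    rw [mem_filter, mem_FA, disjoint_union_right] at hF
    rw [mem_filter, mem_filter, mem_FA, union_biUnion, disjoint_union_left]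
    refine ⟨⟨⟨union_subset hK.1 hF.1.1, ?_⟩, hT, hF.2.1⟩, subset_union_left⟩
    have key : ∀ z ∈ F, ∀ w ∈ K, Disjoint (ns i z) (ns i w) := fun z hz w hw =>
      disjoint_of_subset_left (subset_biUnion_of_mem (ns i) hz)
        (disjoint_of_subset_right (subset_biUnion_of_mem (ns i) hw) hF.2.2)
    intro x hx y hy hne
    rcases mem_union.1 hx with hx1 | hx1 <;> rcases mem_union.1 hy with hy1 | hy1
    · exact hK.2 x hx1 y hy1 hne
    · exact (key y hy1 x hx1).symm
    · exact key x hx1 y hy1
    · exact hF.1.2 x hx1 y hy1 hne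
  · intro F hF
    rw [mem_filter, mem_filter, mem_FA] at hF
    rw [mem_filter, mem_FA, disjoint_union_right]
    refine ⟨Dj_sub hF.1.1 sdiff_subset, ?_, ?_⟩
    · exact disjoint_of_subset_left (biUnion_subset_biUnion_of_subset_left _ sdiff_subset)
        hF.1.2
    · rw [disjoint_biUnion_left]
      intro x hx
      rw [mem_sdiff] at hx
      rw [disjoint_biUnion_right]
      intro w hw
      exact hF.1.1.2 x hx.1 w (hF.2 hw) (fun h => hx.2 (h ▸ hw))
  · intro F hF
    rw [mem_filter, mem_FA, disjoint_union_right] at hF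
    exact union_sdiff_cancel_left (Dj_disj hK.1 hF.2.2)
  · intro F hF
    rw [mem_filter] at hF
    exact union_sdiff_of_subset hF.2
  · intro F hF
    rw [mem_filter, mem_FA, disjoint_union_right] at hF
    exact (oms_union (Dj_disj hK.1 hF.2.2)).symm

lemma filt_empty_s {i : ℕ} : (FA P i).filter (fun F => Disjoint (F.biUnion (ns i)) (∅ : Finset P)) =
    FA P i := filter_true_of_mem (fun _ _ => disjoint_empty_right _)

lemma pss_eq {K : Finset P} (hK : Dj i K) :
    pss s i K = oms s i K * phs s i (K.biUnion (ns i)) := by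
  have h := contains_s (s := s) hK (disjoint_empty_right (K.biUnion (ns i)))
  rw [filt_empty_s, empty_union] at h
  rw [← h]
  rfl

lemma pss_zero {K : Finset P} (hK : ¬ Dj i K) : pss s i K = 0 := by
  unfold pss
  rw [filter_eq_empty_iff.2, sum_empty]
  intro F hF h
  exact hK (Dj_sub (mem_FA.1 hF) h)

lemma Dj_single {w : P} (hw : w ∈ dbL P i ∪ dbU P i) : Dj i ({w} : Finset P) := by
  refine ⟨singleton_subset_iff.2 hw, ?_⟩
  intro a ha b hb hne
  rw [mem_singleton] at ha hb
  exact absurd (ha.trans hb.symm) hne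

lemma pss_one {w : P} (hw : w ∈ dbL P i ∪ dbU P i) :
    pss s i {w} = s * sgn i w * phs s i (ns i w) := by
  rw [pss_eq (Dj_single hw), oms_single, singleton_biUnion]

lemma phs_empty_eq : phs s i (∅ : Finset P) = ∑ F ∈ FA P i, oms s i F := by
  unfold phs
  rw [filt_empty_s]

/-- the total is one -/
lemma phs_empty (H : Gr P r) (hi : i ≤ r) : phs s i (∅ : Finset P) = 1 := by
  rw [phs_empty_eq]
  have h := lays0 (FA P i) (fun F => eps i F) _ s (fun F hF => FA_card hF) 0
  rw [add_zero, sum_range_succ'] at h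
  unfold oms
  rw [← h, zero_fib (mem_FA.2 Dj_empty), eps_empty]
  have h1 : ∑ k ∈ range (dbL P i ∪ dbU P i).card, s ^ (k + 1) *
      ∑ F ∈ (FA P i).filter (fun F => F.card = k + 1), eps i F = 0 := by
    refine sum_eq_zero fun k _ => ?_
    rw [← FF_eq]
    simp only [eps_eq]
    rw [kk H hi (by omega), mul_zero]
  rw [h1]
  norm_num

/-- sum over the families of a function of the size -/
lemma sum_card_mul_s (H : Gr P r) (hi : i ≤ r) : ∑ F ∈ FA P i, oms s i F * (F.card : ℤ) = 0 := by
  have h := lays0 (FA P i) (fun F => eps i F * (F.card : ℤ)) _ s (fun F hF => FA_card hF) 0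
  rw [add_zero] at h
  have h0 : ∑ F ∈ FA P i, oms s i F * (F.card : ℤ) =
      ∑ F ∈ FA P i, s ^ F.card * (eps i F * (F.card : ℤ)) := by
    refine sum_congr rfl fun F _ => ?_
    unfold oms
    ring
  rw [h0, ← h]
  refine sum_eq_zero fun k _ => ?_
  rw [← FF_eq]
  rcases Nat.eq_zero_or_pos k with h1 | h1
  · subst h1
    have h2 : ∑ F ∈ FF P i 0, eps i F * (F.card : ℤ) = 0 := by
      refine sum_eq_zero fun F hF => ?_
      rw [mem_FF] at hF
      rw [hF.2]
      norm_num
    rw [h2, mul_zero]
  · have h2 : ∑ F ∈ FF P i k, eps i F * (F.card : ℤ) = (k : ℤ) * ∑ F ∈ FF P i k, eps i F := by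
      rw [mul_sum]
      refine sum_congr rfl fun F hF => ?_
      rw [mem_FF] at hF
      rw [hF.2]
      ring
    rw [h2]
    simp only [eps_eq]
    rw [kk H hi h1, mul_zero, mul_zero]

/-- counting the elements of a set `W` in the families -/
lemma sum_inter_s (W : Finset P) : ∑ F ∈ FA P i, oms s i F * ((F ∩ W).card : ℤ) =
    ∑ w ∈ W, pss s i {w} := by
  have h1 : ∀ F ∈ FA P i, oms s i F * ((F ∩ W).card : ℤ) =
      ∑ w ∈ W, if w ∈ F then oms s i F else 0 := by
    intro F _
    rw [← sum_filter, sum_const, nsmul_eq_mul, filter_mem_eq_inter, inter_comm]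
    ring
  rw [sum_congr rfl h1, sum_comm]
  refine sum_congr rfl fun w _ => ?_
  unfold pss
  rw [← sum_filter]
  refine sum_congr ?_ fun _ _ => rfl
  ext F
  simp only [mem_filter, singleton_subset_iff]

lemma sum_dbU_s : ∑ F ∈ FA P i, oms s i F * ((F ∩ dbU P i).card : ℤ) =
    -s * ∑ u ∈ dbU P i, phs s i (ns i u) := by
  rw [sum_inter_s, mul_sum]
  refine sum_congr rfl fun u hu => ?_
  rw [pss_one (mem_union_right _ hu)]
  unfold sgn
  rw [if_pos hu]
  ring

/-- the two sides have the same sum -/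
lemma sides_eq_s (H : Gr P r) (hi : i ≤ r) :
    s * (∑ w ∈ dbL P i, phs s i (ns i w) - ∑ u ∈ dbU P i, phs s i (ns i u)) = 0 := by
  have h1 := sum_card_mul_s (s := s) H hi (P := P) (i := i)
  have h2 := sum_inter_s (s := s) (i := i) (dbL P i ∪ dbU P i)
  have h3 : ∑ F ∈ FA P i, oms s i F * ((F ∩ (dbL P i ∪ dbU P i)).card : ℤ) =
      ∑ F ∈ FA P i, oms s i F * (F.card : ℤ) := by
    refine sum_congr rfl fun F hF => ?_
    rw [inter_eq_left.2 (mem_FA.1 hF).1]
  rw [← h3, h2, sum_union dis_LU] at h1
  have h4 : ∑ w ∈ dbL P i, pss s i {w} = s * ∑ w ∈ dbL P i, phs s i (ns i w) := by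
    rw [mul_sum]
    refine sum_congr rfl fun w hw => ?_
    rw [pss_one (mem_union_left _ hw)]
    unfold sgn
    rw [if_neg (disjoint_left.1 dis_LU hw)]
    ring
  have h5 : ∑ w ∈ dbU P i, pss s i {w} = -s * ∑ w ∈ dbU P i, phs s i (ns i w) := by
    rw [mul_sum]
    refine sum_congr rfl fun w hw => ?_
    rw [pss_one (mem_union_right _ hw)]
    unfold sgn
    rw [if_pos hw]
    ring
  rw [h4, h5] at h1
  linear_combination h1

/-- vertex expansion -/
theorem expand_s {T : Finset P} {u : P} :
    phs s i T = phs s i (insert u T) + ∑ y ∈ (dbL P i ∪ dbU P i).filter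
      (fun y => u ∈ ns i y ∧ Disjoint (ns i y) T), s * sgn i y * phs s i (T ∪ ns i y) := by
  classical
  set X := (FA P i).filter (fun F => Disjoint (F.biUnion (ns i)) T) with hX
  have h1 : phs s i T = ∑ F ∈ X.filter (fun F => u ∉ F.biUnion (ns i)), oms s i F +
      ∑ F ∈ X.filter (fun F => ¬ u ∉ F.biUnion (ns i)), oms s i F :=
    (sum_filter_add_sum_filter_not X _ _).symm
  have h2 : ∑ F ∈ X.filter (fun F => u ∉ F.biUnion (ns i)), oms s i F =
      phs s i (insert u T) := by
    unfold phs
    refine sum_congr ?_ fun _ _ => rfl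
    ext F
    rw [hX, mem_filter, mem_filter, mem_filter, disjoint_insert_right]
    tauto
  have h3 : ∑ F ∈ X.filter (fun F => ¬ u ∉ F.biUnion (ns i)), oms s i F =
      ∑ y ∈ (dbL P i ∪ dbU P i).filter (fun y => u ∈ ns i y),
        ∑ F ∈ X.filter (fun F => y ∈ F), oms s i F := by
    have h4 : ∀ F ∈ X.filter (fun F => ¬ u ∉ F.biUnion (ns i)), oms s i F =
        ∑ y ∈ (dbL P i ∪ dbU P i).filter (fun y => u ∈ ns i y),
          if y ∈ F then oms s i F else 0 := by
      intro F hF
      rw [mem_filter, not_not, mem_biUnion, hX, mem_filter, mem_FA] at hF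
      obtain ⟨⟨hF1, hF2⟩, y, hy, huy⟩ := hF
      rw [sum_eq_single y]
      · rw [if_pos hy]
      · intro z hz hne
        rw [mem_filter] at hz
        rw [if_neg]
        intro hzF
        exact disjoint_left.1 (hF1.2 z hzF y hy hne) hz.2 huy
      · intro h5
        exact absurd (mem_filter.2 ⟨hF1.1 hy, huy⟩) h5
    rw [sum_congr rfl h4, sum_comm]
    refine sum_congr rfl fun y hy => ?_
    rw [mem_filter] at hy
    rw [← sum_filter]
    refine sum_congr ?_ fun _ _ => rfl
    ext F
    rw [mem_filter, mem_filter (p := fun F => y ∈ F), mem_filter, not_not, mem_biUnion]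
    constructor
    · exact fun h => ⟨h.1.1, h.2⟩
    · exact fun h => ⟨⟨h.1, y, h.2, hy.2⟩, h.2⟩
  rw [h1, h2, h3]
  congr 1
  rw [← filter_filter]
  rw [sum_filter (s := (dbL P i ∪ dbU P i).filter (fun y => u ∈ ns i y))
    (p := fun y => Disjoint (ns i y) T)]
  refine sum_congr rfl fun y hy => ?_
  rw [mem_filter] at hy
  split_ifs with h5
  · have h6 := contains_s (s := s) (Dj_single hy.1) (T := T)
      (by rw [singleton_biUnion]; exact h5)
    rw [oms_single, singleton_biUnion] at h6
    rw [← h6, hX]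
    refine sum_congr ?_ fun _ _ => rfl
    ext F
    simp only [mem_filter, singleton_subset_iff]
  · rw [filter_eq_empty_iff.2, sum_empty]
    intro F hF hyF
    rw [hX, mem_filter] at hF
    exact h5 (disjoint_of_subset_left (subset_biUnion_of_mem (ns i) hyF) hF.2)

/-- the sum around one near double element -/
lemma around_s {x : P} (hx : x ∈ dbL P i ∪ dbU P i) :
    ∑ y ∈ Rr i x, s * sgn i y * phs s i (ns i x ∪ ns i y) =
      ∑ a ∈ ns i x, phs s i {a} - 2 * phs s i (ns i x) := by
  obtain ⟨a, u, hau, hns⟩ := card_eq_two.1 (ns_card hx)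
  have hR : Rr i x = (dbL P i ∪ dbU P i).filter (fun y => u ∈ ns i y ∧ Disjoint (ns i y) {a}) ∪
      (dbL P i ∪ dbU P i).filter (fun y => a ∈ ns i y ∧ Disjoint (ns i y) {u}) := by
    ext y
    simp only [mem_Rr, mem_union, mem_filter, disjoint_singleton_right]
    rw [hns, pair_inter_card hau]
    tauto
  have hdis : Disjoint ((dbL P i ∪ dbU P i).filter (fun y => u ∈ ns i y ∧ Disjoint (ns i y) {a}))
      ((dbL P i ∪ dbU P i).filter (fun y => a ∈ ns i y ∧ Disjoint (ns i y) {u})) := by
    rw [disjoint_left]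
    intro y h1 h2
    rw [mem_filter, disjoint_singleton_right] at h1 h2
    exact h2.2.2 h1.2.1
  have e1 := expand_s (s := s) (i := i) (T := {a}) (u := u)
  have e2 := expand_s (s := s) (i := i) (T := {u}) (u := a)
  have s1 : ∑ y ∈ (dbL P i ∪ dbU P i).filter (fun y => u ∈ ns i y ∧ Disjoint (ns i y) {a}),
      s * sgn i y * phs s i ({a} ∪ ns i y) =
      ∑ y ∈ (dbL P i ∪ dbU P i).filter (fun y => u ∈ ns i y ∧ Disjoint (ns i y) {a}),
      s * sgn i y * phs s i (ns i x ∪ ns i y) := by
    refine sum_congr rfl fun y hy => ?_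
    rw [mem_filter] at hy
    congr 2
    rw [hns]
    ext z
    simp only [mem_union, mem_insert, mem_singleton]
    constructor
    · tauto
    · rintro ((h | h) | h)
      · exact Or.inl h
      · subst h
        exact Or.inr hy.2.1
      · exact Or.inr h
  have s2 : ∑ y ∈ (dbL P i ∪ dbU P i).filter (fun y => a ∈ ns i y ∧ Disjoint (ns i y) {u}),
      s * sgn i y * phs s i ({u} ∪ ns i y) =
      ∑ y ∈ (dbL P i ∪ dbU P i).filter (fun y => a ∈ ns i y ∧ Disjoint (ns i y) {u}),
      s * sgn i y * phs s i (ns i x ∪ ns i y) := by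
    refine sum_congr rfl fun y hy => ?_
    rw [mem_filter] at hy
    congr 2
    rw [hns]
    ext z
    simp only [mem_union, mem_insert, mem_singleton]
    constructor
    · tauto
    · rintro ((h | h) | h)
      · subst h
        exact Or.inr hy.2.1
      · exact Or.inl h
      · exact Or.inr h
  rw [hR, sum_union hdis, ← s1, ← s2]
  have h3 : phs s i (insert u {a}) = phs s i (ns i x) := by rw [hns, pair_comm]
  have h4 : phs s i (insert a {u}) = phs s i (ns i x) := by rw [hns]
  rw [h3] at e1
  rw [h4] at e2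
  have h5 : ∑ b ∈ ns i x, phs s i {b} = phs s i {a} + phs s i {u} := by rw [hns, sum_pair hau]
  rw [h5]
  linarith

open Classical in
/-- the sum over the pairs of one side -/
lemma pairs_sum_s : 2 * s * ∑ p ∈ OP P i, osg i p * phs s i (p.biUnion (ns i)) =
      -∑ x ∈ dbL P i ∪ dbU P i, (∑ a ∈ ns i x, phs s i {a} - 2 * phs s i (ns i x)) := by
  set W := dbL P i ∪ dbU P i with hW
  set Q := (W ×ˢ W).filter (fun q => (ns i q.1 ∩ ns i q.2).card = 1) with hQ
  have h1 : ∑ x ∈ W, (∑ a ∈ ns i x, phs s i {a} - 2 * phs s i (ns i x)) =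
      s * ∑ q ∈ Q, sgn i q.2 * phs s i (ns i q.1 ∪ ns i q.2) := by
    rw [hQ, sum_filter, sum_product, mul_sum]
    refine sum_congr rfl fun x hx => ?_
    rw [← around_s hx]
    unfold Rr
    rw [sum_filter, mul_sum]
    refine sum_congr rfl fun y _ => ?_
    split_ifs
    · ring
    · ring
  have h2 : ∑ q ∈ Q, sgn i q.2 * phs s i (ns i q.1 ∪ ns i q.2) =
      ∑ q ∈ Q, sgn i q.1 * phs s i (ns i q.1 ∪ ns i q.2) := by
    refine sum_nbij' (fun q => (q.2, q.1)) (fun q => (q.2, q.1)) ?_ ?_ ?_ ?_ ?_
    · intro q hq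
      rw [hQ, mem_filter, mem_product] at hq ⊢
      exact ⟨⟨hq.1.2, hq.1.1⟩, by rw [inter_comm]; exact hq.2⟩
    · intro q hq
      rw [hQ, mem_filter, mem_product] at hq ⊢
      exact ⟨⟨hq.1.2, hq.1.1⟩, by rw [inter_comm]; exact hq.2⟩
    · intro q _
      rfl
    · intro q _
      rfl
    · intro q _
      simp only
      rw [union_comm (ns i q.2)]
  have h3 : ∑ q ∈ Q, sgn i q.2 * phs s i (ns i q.1 ∪ ns i q.2) =
      ∑ q ∈ Q.filter (fun q => Sm i q.1 q.2), sgn i q.1 * phs s i (ns i q.1 ∪ ns i q.2) := by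
    have h4 : 2 * ∑ q ∈ Q, sgn i q.2 * phs s i (ns i q.1 ∪ ns i q.2) =
        2 * ∑ q ∈ Q.filter (fun q => Sm i q.1 q.2),
          sgn i q.1 * phs s i (ns i q.1 ∪ ns i q.2) := by
      have h5 : 2 * ∑ q ∈ Q, sgn i q.2 * phs s i (ns i q.1 ∪ ns i q.2) =
          ∑ q ∈ Q, sgn i q.2 * phs s i (ns i q.1 ∪ ns i q.2) +
            ∑ q ∈ Q, sgn i q.1 * phs s i (ns i q.1 ∪ ns i q.2) := by
        rw [← h2]
        ring
      rw [h5, ← sum_add_distrib, mul_sum, sum_filter (s := Q) (p := fun q => Sm i q.1 q.2)]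
      refine sum_congr rfl fun q hq => ?_
      rw [hQ, mem_filter, mem_product, hW, mem_union, mem_union] at hq
      obtain ⟨⟨hx, hy⟩, _⟩ := hq
      rcases hx with hx | hx <;> rcases hy with hy | hy
      · have hsm : Sm i q.1 q.2 := Or.inl ⟨hx, hy⟩
        rw [if_pos hsm, sgn_L hx, sgn_L hy]
        ring
      · rw [if_neg, sgn_L hx, sgn_U hy]
        · ring
        · rintro (h | h)
          · exact disjoint_left.1 dis_LU h.2 hy
          · exact disjoint_left.1 dis_LU hx h.1
      · rw [if_neg, sgn_U hx, sgn_L hy]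
        · ring
        · rintro (h | h)
          · exact disjoint_left.1 dis_LU h.1 hx
          · exact disjoint_left.1 dis_LU hy h.2
      · have hsm : Sm i q.1 q.2 := Or.inr ⟨hx, hy⟩
        rw [if_pos hsm, sgn_U hx, sgn_U hy]
        ring
    linarith
  have hmem : ∀ q ∈ Q.filter (fun q => Sm i q.1 q.2), ({q.1, q.2} : Finset P) ∈ OP P i := by
    rintro ⟨x, y⟩ hq
    rw [mem_filter, hQ, mem_filter, mem_product] at hq
    obtain ⟨⟨⟨hx, hy⟩, hc⟩, hs⟩ := hq
    simp only at hx hy hc hs
    have hne : x ≠ y := by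
      rintro rfl
      rw [inter_self, ns_card hx] at hc
      omega
    rw [mem_OP]
    refine ⟨?_, card_pair hne, ?_⟩
    · rcases hs with h | h
      · left
        intro z hz
        rw [mem_insert, mem_singleton] at hz
        rcases hz with rfl | rfl
        · exact h.1
        · exact h.2
      · right
        intro z hz
        rw [mem_insert, mem_singleton] at hz
        rcases hz with rfl | rfl
        · exact h.1
        · exact h.2
    · rw [biUnion_insert, singleton_biUnion]
      have h5 := card_union_add_card_inter (ns i x) (ns i y)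
      have h6 := ns_card hx
      have h7 := ns_card hy
      show (ns i x ∪ ns i y).card = 3
      omega
  have h6 : 2 * ∑ p ∈ OP P i, osg i p * phs s i (p.biUnion (ns i)) =
      -∑ q ∈ Q.filter (fun q => Sm i q.1 q.2),
        sgn i q.1 * phs s i (ns i q.1 ∪ ns i q.2) := by
    rw [mul_sum, ← sum_neg_distrib, ← sum_fiberwise_of_maps_to hmem]
    refine sum_congr rfl fun p hp => ?_
    have hp' := mem_OP.1 hp
    obtain ⟨x, y, hne, rfl⟩ := card_eq_two.1 hp'.2.1
    have hside : (x ∈ dbL P i ∧ y ∈ dbL P i) ∨ (x ∈ dbU P i ∧ y ∈ dbU P i) := by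
      rcases hp'.1 with h | h
      · exact Or.inl ⟨h (by simp), h (by simp)⟩
      · exact Or.inr ⟨h (by simp), h (by simp)⟩
    have hxW : x ∈ W := by
      rw [hW, mem_union]
      tauto
    have hyW : y ∈ W := by
      rw [hW, mem_union]
      tauto
    have hc : (ns i x ∩ ns i y).card = 1 := by
      have h5 := card_union_add_card_inter (ns i x) (ns i y)
      have h6 := ns_card hxW
      have h7 := ns_card hyW
      have h8 := hp'.2.2
      rw [biUnion_insert, singleton_biUnion] at h8
      omega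
    have hfib : (Q.filter (fun q => Sm i q.1 q.2)).filter
        (fun q => ({q.1, q.2} : Finset P) = {x, y}) = {(x, y), (y, x)} := by
      ext ⟨a, b⟩
      rw [mem_filter, mem_filter, hQ, mem_filter, mem_product, mem_insert, mem_singleton,
        Prod.mk.injEq, Prod.mk.injEq]
      simp only
      constructor
      · rintro ⟨⟨⟨⟨ha, hb⟩, hab⟩, _⟩, he⟩
        have hne2 : a ≠ b := by
          rintro rfl
          rw [inter_self, ns_card ha] at hab
          omega
        have h5 : a ∈ ({x, y} : Finset P) := by rw [← he]; simp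
        have h6 : b ∈ ({x, y} : Finset P) := by rw [← he]; simp
        rw [mem_insert, mem_singleton] at h5 h6
        rcases h5 with rfl | rfl <;> rcases h6 with rfl | rfl
        · exact absurd rfl hne2
        · exact Or.inl ⟨rfl, rfl⟩
        · exact Or.inr ⟨rfl, rfl⟩
        · exact absurd rfl hne2
      · rintro (⟨rfl, rfl⟩ | ⟨rfl, rfl⟩)
        · exact ⟨⟨⟨⟨hxW, hyW⟩, hc⟩, hside⟩, rfl⟩
        · refine ⟨⟨⟨⟨hyW, hxW⟩, by rw [inter_comm]; exact hc⟩, ?_⟩, pair_comm _ _⟩
          rcases hside with h | h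
          · exact Or.inl ⟨h.2, h.1⟩
          · exact Or.inr ⟨h.2, h.1⟩
    have hne3 : (x, y) ≠ (y, x) := by
      intro h
      rw [Prod.mk.injEq] at h
      exact hne h.1
    rw [sum_neg_distrib, hfib, sum_pair hne3, biUnion_insert, singleton_biUnion]
    simp only
    rw [union_comm (ns i y)]
    unfold osg
    rcases hside with h | h
    · rw [if_neg, sgn_L h.1, sgn_L h.2]
      · ring
      · intro h9
        exact disjoint_left.1 dis_LU h.1 (h9 (by simp))
    · rw [if_pos, sgn_U h.1, sgn_U h.2]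
      · ring
      · intro z hz
        rw [mem_insert, mem_singleton] at hz
        rcases hz with rfl | rfl
        · exact h.1
        · exact h.2
  rw [h1, h3]
  linear_combination s * h6

end T6N
end Pool.Agent.GaussPoset.Win
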