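import Pool.Agent.W_448qd_h16.QB

/-! The first order identities at an integer `s`: element form (MP_448cb3_co). -/

namespace Pool.Agent.GaussPoset.Win
namespace T6N

set_option linter.unusedSectionVars false

open Finset

universe u

variable {P : Type u} [Fintype P] [PartialOrder P] [DecidableEq P] {r : ℕ} {i : ℕ} {s : ℤ}

open Classical in
/-- elements two levels below with two upper covers, both double, without common site -/
noncomputable def QD (P : Type u) [Fintype P] [PartialOrder P] [DecidableEq P] (i : ℕ) :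
    Finset P :=
  (lv P (i + 2)).filter (fun z => (uc z).card = 2 ∧ Dj i (uc z))

lemma mem_QD {z : P} : z ∈ QD P i ↔ lev z = i + 2 ∧ (uc z).card = 2 ∧ Dj i (uc z) := by
  classical
  unfold QD
  rw [mem_filter, mem_lv]

/-- the sites above an element of `QD` -/
lemma sgn_uc (H : Gr P r) {z w : P} (hz : lev z = i + 2) (hw : w ∈ uc z) : sgn i w = 1 := by
  unfold sgn
  rw [if_neg]
  intro h
  have h1 := (mem_dbU.1 h).1
  have h2 := lev_uc H hw
  omega

lemma oms_QD (H : Gr P r) {z : P} (hz : z ∈ QD P i) : oms s i (uc z) = s ^ 2 := by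
  rw [mem_QD] at hz
  unfold oms eps
  rw [hz.2.1, prod_eq_one (fun w hw => sgn_uc H hz.1 hw), mul_one]

lemma far2_s (H : Gr P r) : ∑ z ∈ (lv P (i + 2)).filter (fun z => (uc z).card = 2),
    pss s i (uc z) = s ^ 2 * ∑ z ∈ QD P i, phs s i ((uc z).biUnion (ns i)) := by
  classical
  have h1 : QD P i = ((lv P (i + 2)).filter (fun z => (uc z).card = 2)).filter
      (fun z => Dj i (uc z)) := by
    unfold QD
    rw [filter_filter]
  rw [h1, mul_sum, sum_filter (p := fun z => Dj i (uc z))]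
  refine sum_congr rfl fun z hz => ?_
  split_ifs with h2
  · rw [pss_eq h2]
    rw [mem_filter, mem_lv] at hz
    rw [oms_QD H (mem_QD.2 ⟨hz.1, hz.2, h2⟩)]
  · exact pss_zero h2

/-- far lower elements -/
lemma far_L_s (H : Gr P r) : ∑ z ∈ lv P (i + 2), pss s i (uc z) =
    s * ∑ z ∈ PD P i, phs s i ((uc z).biUnion (ns i)) +
      s ^ 2 * ∑ z ∈ QD P i, phs s i ((uc z).biUnion (ns i)) := by
  classical
  rw [← far2_s H, ← sum_filter_not_add_sum_filter (lv P (i + 2)) (fun z => (uc z).card = 2)]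
  congr 1
  rw [mul_sum]
  symm
  refine sum_subset_zero_on_sdiff ?_ ?_ ?_
  · intro z hz
    rw [mem_PD] at hz
    rw [mem_filter, mem_lv]
    refine ⟨hz.1, ?_⟩
    rw [hz.2.1]
    norm_num
  · intro z hz
    rw [mem_sdiff, mem_filter, mem_lv, mem_PD] at hz
    obtain ⟨⟨h1, h2⟩, h3⟩ := hz
    have h4 := uc_card_le H z
    have h5 := card_pos.2 (uc_nonempty H (x := z) (by omega))
    obtain ⟨w, hw⟩ := card_eq_one.1 (show (uc z).card = 1 by omega)
    refine pss_zero (fun h6 => h3 ⟨h1, by omega, w, ?_, ?_⟩)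
    · rw [← mem_uc, hw]
      exact mem_singleton_self w
    · have h7 : w ∈ uc z := by
        rw [hw]
        exact mem_singleton_self w
      have h8 := lev_uc H h7
      rcases mem_union.1 (h6.1 h7) with h9 | h9
      · exact (mem_dbL.1 h9).2
      · have := (mem_dbU.1 h9).1
        omega
  · intro z hz
    rw [mem_PD] at hz
    obtain ⟨h1, h2, w, h3, h4⟩ := hz
    obtain ⟨w', hw'⟩ := card_eq_one.1 h2
    have h5 : w = w' := by
      rw [← mem_uc, hw', mem_singleton] at h3
      exact h3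
    subst h5
    have h6 : w ∈ dbL P i := by
      have := (H.covBy_iff.1 h3).2
      exact mem_dbL.2 ⟨by omega, h4⟩
    rw [hw', pss_one (mem_union_left _ h6), sgn_L h6, singleton_biUnion]
    ring

/-- far upper elements -/
lemma far_U_s (H : Gr P r) : ∑ z ∈ (lU P i 2).filter (fun z => (dc z).card = 1), pss s i (dc z) =
    -s * ∑ z ∈ PU P i, phs s i ((dc z).biUnion (ns i)) := by
  classical
  rw [mul_sum]
  symm
  refine sum_subset_zero_on_sdiff ?_ ?_ ?_
  · intro z hz
    rw [mem_PU] at hz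
    rw [mem_filter, mem_lU]
    exact ⟨hz.1, hz.2.1⟩
  · intro z hz
    rw [mem_sdiff, mem_filter, mem_lU, mem_PU] at hz
    obtain ⟨⟨h1, h2⟩, h3⟩ := hz
    obtain ⟨w, hw⟩ := card_eq_one.1 h2
    rw [hw]
    have h7 : w ∈ dc z := by
      rw [hw]
      exact mem_singleton_self w
    refine pss_zero (fun h6 => h3 ⟨h1, h2, w, mem_dc.1 h7, ?_⟩)
    have h8 := lev_dc H h7
    rcases mem_union.1 (h6.1 (mem_singleton_self w)) with h9 | h9
    · have := (mem_dbL.1 h9).1
      omega
    · exact (mem_dbU.1 h9).2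
  · intro z hz
    rw [mem_PU] at hz
    obtain ⟨h1, h2, w, h3, h4⟩ := hz
    obtain ⟨w', hw'⟩ := card_eq_one.1 h2
    have h5 : w = w' := by
      rw [← mem_dc, hw', mem_singleton] at h3
      exact h3
    subst h5
    have h6 : w ∈ dbU P i := by
      have := (H.covBy_iff.1 h3).2
      exact mem_dbU.2 ⟨by omega, h4⟩
    rw [hw', pss_one (mem_union_right _ h6), sgn_U h6, singleton_biUnion]
    ring

/-- the first order identity at `s`, element form -/
theorem elems (H : Gr P r) (hi : i ≤ r) (h3 : ∀ x : P, lev x + 2 = i → dn i x ≤ 3) :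
    s * (∑ x ∈ dbL P i ∪ dbU P i, (∑ a ∈ ns i x, phs s i {a} + phs s i (ns i x) - 3) +
      2 * ∑ h ∈ sgl P i, (phs s i (ns i h) - 1) - 2 * ∑ v ∈ lv P i, (GGs s i v - 1) -
      2 * s * (∑ z ∈ PD P i, phs s i ((uc z).biUnion (ns i)) -
        ∑ z ∈ PU P i, phs s i ((dc z).biUnion (ns i))) -
      2 * s ^ 2 * (1 + s) * ∑ z ∈ QD P i, phs s i ((uc z).biUnion (ns i))) = 0 := by
  have h := raws H hi h3 s
  have hp := pairs_sum_s (P := P) (i := i) (s := s)
  have hL := far_L_s H (P := P) (i := i) (s := s)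
  have h2 := far2_s H (P := P) (i := i) (s := s)
  have hU := far_U_s H (P := P) (i := i) (s := s)
  have hd := sum_dbU_s (P := P) (i := i) (s := s)
  have hs := sides_eq_s H hi (P := P) (s := s)
  have hc := card_sides H hi (P := P)
  have e1 : ∑ x ∈ dbL P i ∪ dbU P i, (∑ a ∈ ns i x, phs s i {a} + phs s i (ns i x) - 3) =
      ∑ x ∈ dbL P i ∪ dbU P i, (∑ a ∈ ns i x, phs s i {a} - 2 * phs s i (ns i x)) +
      3 * (∑ x ∈ dbL P i, phs s i (ns i x) + ∑ x ∈ dbU P i, phs s i (ns i x)) -
      3 * ((dbL P i).card + (dbU P i).card) := by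
    have e2 : ∑ x ∈ dbL P i, phs s i (ns i x) + ∑ x ∈ dbU P i, phs s i (ns i x) =
        ∑ x ∈ dbL P i ∪ dbU P i, phs s i (ns i x) := (sum_union dis_LU).symm
    have e3 : ((dbL P i).card : ℤ) + (dbU P i).card = ∑ x ∈ dbL P i ∪ dbU P i, (1 : ℤ) := by
      rw [sum_const, card_union_of_disjoint dis_LU, nsmul_eq_mul, mul_one]
      push_cast
      ring
    rw [e2, e3, mul_sum, mul_sum, ← sum_add_distrib, ← sum_sub_distrib]
    refine sum_congr rfl fun x _ => ?_
    ring
  rw [e1]
  rw [hL, h2, hU, hd] at h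
  linear_combination (-2) * h + s * hp + 3 * hs - 3 * s * hc

end T6N
end Pool.Agent.GaussPoset.Win
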