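import Pool.Agent.W_448qd_h16.QE
import Pool.Agent.W_448t6_h16.TD

/-! The first order identities as a polynomial identity (MP_448cb3_co). -/

namespace Pool.Agent.GaussPoset.St

set_option linter.unusedSectionVars false

open Finset Polynomial

section loc

variable {α : Type*} [DecidableEq α] {A : Finset α → ℤ}

variable {ι : Type*} [DecidableEq ι] {s : Finset ι} {W : ι → Finset α}

lemma Blk.mp_loc (B : Blk A s W) {i : ι} (hi : i ∈ s) {T : Finset α} (hT : T ⊆ W i) :
    mp A (s.biUnion W \ T) = mp A (W i \ T) := by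
  have h1 : s.biUnion W \ T = (W i \ T) ∪ (s.erase i).biUnion W := by
    ext u
    simp only [mem_sdiff, mem_biUnion, mem_union, mem_erase]
    constructor
    · rintro ⟨⟨j, hj, hu⟩, hn⟩
      by_cases h : j = i
      · subst h
        exact Or.inl ⟨hu, hn⟩
      · exact Or.inr ⟨j, ⟨h, hj⟩, hu⟩
    · rintro (⟨h1, h2⟩ | ⟨j, ⟨h1, h2⟩, h3⟩)
      · exact ⟨⟨i, hi, h1⟩, h2⟩
      · exact ⟨⟨j, h2, h3⟩, fun h4 => disjoint_left.1 (B.disj j h2 i hi h1) h3 (hT h4)⟩
  have h2 : mp A ((s.erase i).biUnion W) = 1 := by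
    rw [mp_biUnion]
    · exact prod_eq_one fun j hj => B.one j (mem_of_mem_erase hj)
    · exact fun a ha b hb hab => B.disj a (mem_of_mem_erase ha) b (mem_of_mem_erase hb) hab
    · exact fun a ha b hb hab => B.zero a (mem_of_mem_erase ha) b (mem_of_mem_erase hb) hab
  rw [h1, mp_union, h2, mul_one]
  · rw [disjoint_left]
    intro u hu hu'
    obtain ⟨j, hj, h3⟩ := mem_biUnion.1 hu'
    rw [mem_erase] at hj
    exact disjoint_left.1 (B.disj j hj.2 i hi hj.1) h3 (mem_sdiff.1 hu).1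
  · intro u hu w hw
    obtain ⟨j, hj, h3⟩ := mem_biUnion.1 hw
    rw [mem_erase] at hj
    exact B.zero i hi j hj.2 (Ne.symm hj.1) u (mem_sdiff.1 hu).1 w h3

lemma gx_sub {V N : Finset α} {v : α} (hN : N ⊆ V.erase v)
    (h0 : ∀ y ∈ V.erase v, y ∉ N → A {v, y} = 0) :
    gx A V v = ∑ S ∈ N.powerset, (∏ y ∈ S, -(C (A {v, y}) * X)) * mp A (V \ insert v S) := by
  unfold gx
  refine (sum_subset (powerset_mono.2 hN) ?_).symm
  intro S hS hn
  rw [mem_powerset] at hS
  rw [mem_powerset, not_subset] at hn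
  obtain ⟨y, hy, hy'⟩ := hn
  rw [prod_eq_zero hy, zero_mul]
  rw [h0 y (hS hy) hy', C_0, zero_mul, neg_zero]

lemma Blk.gx_loc (B : Blk A s W) {i : ι} (hi : i ∈ s) {v : α} (hv : v ∈ W i) :
    gx A (s.biUnion W) v = gx A (W i) v := by
  rw [gx_sub (N := (W i).erase v)]
  · unfold gx
    refine sum_congr rfl fun S hS => ?_
    rw [mem_powerset] at hS
    rw [B.mp_loc hi]
    rw [insert_subset_iff]
    exact ⟨hv, hS.trans (erase_subset _ _)⟩
  · exact erase_subset_erase _ (subset_biUnion_of_mem W hi)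
  · intro y hy hn
    rw [mem_erase, mem_biUnion] at hy
    obtain ⟨h1, j, hj, h2⟩ := hy
    have hji : i ≠ j := by
      rintro rfl
      exact hn (mem_erase.2 ⟨h1, h2⟩)
    exact B.zero i hi j hj hji v hv y h2

end loc

section deg

variable {α : Type*} [DecidableEq α] {A : Finset α → ℤ} {V U : Finset α}

lemma Tight.deg (h : Tight A V) (hU : U ⊆ V) : (mp A U).natDegree ≤ 1 := by
  rw [h.mp_eq hU]
  refine (natDegree_add_le _ _).trans (max_le ?_ ?_)
  · rw [natDegree_one]
    exact Nat.zero_le 1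
  · exact (natDegree_C_mul_le _ _).trans natDegree_X_le

/-- the site sum of a block without disjoint edges and with small degrees -/
theorem Tight.gx_deg (h : Tight A V) {v : α}
    (hN : ∃ N ⊆ V.erase v, (∀ y ∈ V.erase v, y ∉ N → A {v, y} = 0) ∧
      (N.card ≤ 1 ∨ (N.card ≤ 2 ∧ mp A (V \ insert v N) = 1))) : (gx A V v).natDegree ≤ 2 := by
  obtain ⟨N, hN1, hN2, hN3⟩ := hN
  rw [gx_sub hN1 hN2]
  refine natDegree_sum_le_of_forall_le _ _ fun S hS => ?_
  rw [mem_powerset] at hS
  have h1 : (∏ y ∈ S, -(C (A {v, y}) * X)).natDegree ≤ S.card := by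
    refine (natDegree_prod_le _ _).trans ?_
    refine (sum_le_card_nsmul _ _ 1 fun y _ => ?_).trans (by rw [smul_eq_mul, mul_one])
    rw [natDegree_neg]
    exact (natDegree_C_mul_le _ _).trans natDegree_X_le
  refine natDegree_mul_le.trans ?_
  have h2 := card_le_card hS
  have h3 : (mp A (V \ insert v S)).natDegree ≤ 1 := h.deg sdiff_subset
  rcases hN3 with h4 | ⟨h4, h5⟩
  · omega
  · by_cases h6 : S.card ≤ 1
    · omega
    · have h7 : S = N := eq_of_subset_of_card_le hS (by omega)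
      rw [h7, h5, natDegree_one, ← h7]
      omega

end deg

end Pool.Agent.GaussPoset.St

namespace Pool.Agent.GaussPoset.Win
namespace T6N

set_option linter.unusedSectionVars false

open Finset Polynomial

universe u

variable {P : Type u} [Fintype P] [PartialOrder P] [DecidableEq P] {r : ℕ} {i : ℕ}

/-- the families avoiding `T` as a polynomial -/
noncomputable def Fx (i : ℕ) (T : Finset P) : ℤ[X] := St.mp (Df i) (lv P i \ T)

lemma Fx_eval (H : Gr P r) (T : Finset P) (s : ℤ) : (Fx i T).eval s = phs s i T :=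
  (phs_eq H T).symm

/-- THE FIRST ORDER IDENTITIES: the coefficient of `X ^ (n - 1)` is the identity at energy `n` -/
theorem poly (H : Gr P r) (hi : i ≤ r) (h3 : ∀ x : P, lev x + 2 = i → dn i x ≤ 3) :
    ∑ x ∈ dbL P i ∪ dbU P i, (∑ a ∈ ns i x, Fx i {a} + Fx i (ns i x) - 3) +
      2 * ∑ h ∈ sgl P i, (Fx i (ns i h) - 1) - 2 * ∑ v ∈ lv P i, (St.gx (Df i) (lv P i) v - 1) -
      2 * X * (∑ z ∈ PD P i, Fx i ((uc z).biUnion (ns i)) -
        ∑ z ∈ PU P i, Fx i ((dc z).biUnion (ns i))) -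
      2 * X ^ 2 * (1 + X) * ∑ z ∈ QD P i, Fx i ((uc z).biUnion (ns i)) = 0 := by
  apply mul_left_cancel₀ (X_ne_zero (R := ℤ))
  rw [mul_zero]
  refine Polynomial.funext fun s => ?_
  have h := elems H hi h3 (s := s)
  have e : ∀ v ∈ lv P i, GGs s i v - 1 = (St.gx (Df i) (lv P i) v - 1).eval s := by
    intro v hv
    rw [eval_sub, eval_one, GGs_eq H hv]
  rw [sum_congr rfl e] at h
  simp only [← Fx_eval H] at h
  simp only [eval_mul, eval_add, eval_sub, eval_X, eval_finsetSum, eval_one, eval_pow, eval_zero,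
    eval_ofNat] at h ⊢
  exact h

end T6N
end Pool.Agent.GaussPoset.Win
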